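import Pool.Agent.MP_5053af_an.Mg.H21_Plane

set_option autoImplicit false

namespace Pool.Agent.Results.MP_5053af_an.PlanarAll

/-- Planar recurrence of Hadamard lacunary exponential series with bounded coefficients that are
not square summable: for almost every `x` every complex number is a cluster value of the
partial sums. -/
theorem result :
    ∀ (n : ℕ → ℝ) (a : ℕ → ℂ) (q β : ℝ), 1 < q → 0 < n 0 → (∀ k, q * n k ≤ n (k + 1)) →
      (∀ k, ‖a k‖ ≤ β) → ¬Summable (fun k => ‖a k‖ ^ 2) →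
      ∀ᵐ x : ℝ, ∀ ξ : ℂ, ∀ ε : ℝ, 0 < ε → ∃ᶠ m in Filter.atTop,
        ‖(∑ k ∈ Finset.range m, a k * Complex.exp (((n k * x : ℝ) : ℂ) * Complex.I)) - ξ‖ < ε :=
  fun _ _ _ _ hq h0 hl hb hs => Pool.Agent.MP_5053af_an.H21.planar hq h0 hl hb hs

end Pool.Agent.Results.MP_5053af_an.PlanarAll
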