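import Pool.Agent.MP_5053af_an.T18.Main

/-- A sequence with gaps `1 + (log₂ k + 1)⁻¹²` whose exponential sums tend to infinity almost
everywhere. -/
theorem Pool.Agent.Results.MP_5053af_an.PlanarTransient.result :
    ∃ n : ℕ → ℕ, (∀ k, 0 < n k) ∧
      (∀ k, (1 + 1 / ((Nat.log 2 k : ℝ) + 1) ^ 12) * (n k : ℝ) ≤ (n (k + 1) : ℝ)) ∧
      ∀ᵐ x : ℝ, Filter.Tendsto
        (fun m : ℕ => ‖∑ k ∈ Finset.range m, Complex.exp (Complex.I * (n k : ℂ) * (x : ℂ))‖)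
        Filter.atTop Filter.atTop :=
  Pool.Agent.T18.top
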